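import Pool.Agent.helper36.MP.SpecP

/-!
# EV1: the critical value is attained only near the cutoff
-/

set_option autoImplicit false

open Complex Metric Set Filter Topology MeasureTheory

noncomputable section

namespace MPS

lemma EV1_mono {n k : ℕ} [NeZero k] {c : ℂ} {b : ZMod k → ℂ} {ψ : ℂ → ℂ} {δ : ℝ} {A : ℕ → ℝ}
    {G : ℕ → ℂ → ℂ} {Q : ℕ} (H : Sys1 n c b ψ δ A G Q) : ∀ q ≤ Q, A q ≤ A Q := by
  intro q hq
  have key : ∀ m, q ≤ m → m ≤ Q → A q ≤ A m := by
    intro m hm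
    induction m, hm using Nat.le_induction with
    | base => intro _; exact le_rfl
    | succ m hm ih => intro h; exact (ih (by omega)).trans (H.mono m (by omega))
  exact key Q hq le_rfl

/-- one more level -/
lemma EV1_ext (hLR : LR_stmt) (hP1A : P1A_stmt) {n k : ℕ} [NeZero k] {c : ℂ} {b g : ZMod k → ℂ}
    {ψ : ZMod k → ℂ → ℂ} {R ε δ : ℝ} {A : ℕ → ℝ} {G : ℕ → ℂ → ℂ} {Q : ℕ}
    (H : H1 n k c b g ψ R ε δ A G Q) (hQ : Q < k) (a' : ℝ) (ha' : A Q ≤ a')
    (hdisj : 1 ≤ Q → Disjoint (G Q '' ball 0 (Real.exp (-a'))) (ψ 0 '' ball 0 (Real.exp (-δ))))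
    (hc : ∀ u ∈ ball (0 : ℂ) (Real.exp (-a')), G Q u ≠ c) :
    ∃ g' : ℂ → ℂ, H1 n k c b g ψ R ε δ (Function.update A (Q + 1) a') (Function.update G (Q + 1) g')
      (Q + 1) := by
  obtain ⟨A1, A2, A3, A4, A5, A6⟩ := hP1A n k c b g ψ R ε δ A G Q H
  have hn := H.su.hn
  have hsub : ball (0 : ℂ) (Real.exp (-a')) ⊆ ball 0 (Real.exp (-A Q)) :=
    ball_subset_ball (Real.exp_le_exp.mpr (by linarith))
  obtain ⟨g', hg1, hg2, hg3⟩ := hLR n (ball (0 : ℂ) (Real.exp (-a'))) (fun u => G Q u - c) 0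
    (b (-((Q + 1 : ℕ) : ZMod k))) (by omega) isOpen_ball (convex_ball _ _)
    (((A1 Q le_rfl).mono hsub).sub_const c) (fun u hu => sub_ne_zero.mpr (hc u hu))
    (mem_ball_self (Real.exp_pos _)) (by
      have h1 := H.su.cyc.step (-((Q + 1 : ℕ) : ZMod k))
      have h2 : -((Q + 1 : ℕ) : ZMod k) + 1 = -(Q : ZMod k) := by push_cast; ring
      rw [h2, ← H.sys.val Q le_rfl] at h1
      linear_combination h1)
  have uA : ∀ q ≤ Q, Function.update A (Q + 1) a' q = A q := fun q hq =>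
    Function.update_of_ne (by omega) _ _
  have uG : ∀ q ≤ Q, Function.update G (Q + 1) g' q = G q := fun q hq =>
    Function.update_of_ne (by omega) _ _
  refine ⟨g', ⟨H.su, H.d0, H.d1, H.mp, ⟨?_, ?_, ?_, ?_, ?_, ?_, ?_⟩, hQ⟩⟩
  · rw [uA 0 (Nat.zero_le _)]
    exact H.sys.a0
  · intro q hq
    rcases Nat.lt_succ_iff_lt_or_eq.mp hq with h | rfl
    · rw [uA q (by omega), uA (q + 1) (by omega)]
      exact H.sys.mono q h
    · rw [uA q le_rfl, Function.update_self]
      exact ha'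
  · rw [uG 0 (Nat.zero_le _)]
    exact H.sys.g0
  · intro q hq1 hq
    rcases Nat.lt_or_ge Q q with h | h
    · have : q = Q + 1 := by omega
      subst this
      rw [Function.update_self, Function.update_self]
      exact hg1
    · rw [uA q h, uG q h]
      exact H.sys.diff q hq1 h
  · intro q hq
    rcases Nat.lt_succ_iff_lt_or_eq.mp hq with h | rfl
    · rw [uA (q + 1) (by omega), uG q (by omega), uG (q + 1) (by omega)]
      exact H.sys.rel q h
    · rw [uG q le_rfl, Function.update_self, Function.update_self]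
      intro u hu
      refine ⟨?_, ?_⟩
      · rw [hg3 u hu]
        ring
      · intro h0
        have := hg3 u hu
        rw [h0, zero_pow (by omega)] at this
        exact hc u hu (sub_eq_zero.mp this.symm)
  · intro q hq
    rcases Nat.lt_or_ge Q q with h | h
    · have : q = Q + 1 := by omega
      subst this
      rw [Function.update_self]
      exact hg2
    · rw [uG q h]
      exact H.sys.val q h
  · intro q hq1 hq
    rcases Nat.lt_succ_iff_lt_or_eq.mp hq with h | rfl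
    · rw [uA (q + 1) (by omega), uG q (by omega)]
      exact H.sys.disj q hq1 h
    · rw [uG q le_rfl, Function.update_self]
      exact hdisj hq1

lemma EV1_ofReal_sum (s : Finset ℕ) (f : ℕ → ℝ) :
    ENNReal.ofReal (∑ q ∈ s, f q) ≤ ∑ q ∈ s, ENNReal.ofReal (f q) := by
  classical
  induction s using Finset.induction_on with
  | empty => simp
  | insert a s ha ih =>
    rw [Finset.sum_insert ha, Finset.sum_insert ha]
    exact ENNReal.ofReal_add_le.trans (add_le_add le_rfl ih)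

lemma EV1_exp_inj {wc : ℂ} {d : ℝ} (hd : d ≤ 3) : InjOn Complex.exp (ball wc d) := by
  intro w hw w' hw' h
  obtain ⟨m, hm⟩ := Complex.exp_eq_exp_iff_exists_int.mp h
  have h1 : ‖w - w'‖ < 6 := by
    have h2 : ‖w - w'‖ ≤ ‖w - wc‖ + ‖wc - w'‖ := norm_sub_le_norm_sub_add_norm_sub w wc w'
    rw [mem_ball, dist_eq_norm] at hw hw'
    rw [norm_sub_rev] at hw'
    linarith
  have h3 : m = 0 := by
    by_contra hm0
    have h4 : w - w' = m * (2 * Real.pi * Complex.I) := by rw [hm]; ring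
    rw [h4, norm_mul] at h1
    have h5 : (1 : ℝ) ≤ ‖(m : ℂ)‖ := by
      rw [Complex.norm_intCast]
      exact_mod_cast Int.one_le_abs hm0
    have h6 : ‖(2 * Real.pi * Complex.I : ℂ)‖ = 2 * Real.pi := by
      rw [norm_mul, norm_mul, Complex.norm_I, Complex.norm_real]
      simp [abs_of_pos Real.pi_pos]
    rw [h6] at h1
    have := Real.pi_gt_three
    nlinarith
  rw [hm, h3]
  simp

lemma EV1_HP {a : ℝ} {w : ℂ} (hw : w ∈ HP a) : Complex.exp w ∈ ball (0 : ℂ) (Real.exp (-a)) := by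
  rw [mem_ball_zero_iff, Complex.norm_exp]
  exact Real.exp_lt_exp.mpr hw

lemma EV1_aem (hMI : MI_stmt) {n k : ℕ} [NeZero k] {c : ℂ} {b g : ZMod k → ℂ} {F : ℂ → ℂ} {D : Set ℂ}
    (hD : MeasurableSet D) (hF : DifferentiableOn ℂ F D) :
    AEMeasurable (fun w => ENNReal.ofReal (dens n c b g F w)) (volume.restrict D) := by
  obtain ⟨m1, m2, m3, m4⟩ := hMI.1 n k c b g
  have h1 : AEMeasurable F (volume.restrict D) := hF.continuousOn.aemeasurable hD
  have h2 : AEMeasurable (fun w => Df n c b g (F w)) (volume.restrict D) := m3.comp_aemeasurable h1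
  have h3 : AEMeasurable (fun w => ‖er n c b g (F w)‖) (volume.restrict D) :=
    (m2.comp_aemeasurable h1).norm
  have h4 : AEMeasurable (fun w => ‖deriv F w‖ ^ 2) (volume.restrict D) :=
    ((measurable_deriv F).norm.pow_const 2).aemeasurable
  exact ((h2.add (h3.const_mul 2)).mul h4).ennreal_ofReal

theorem EV1 (hLR : LR_stmt) (hP1A : P1A_stmt) (hLEA : LEA_stmt) (hLEI : LEI_stmt) (hLV : LV_stmt)
    (hMI : MI_stmt) (hMA : MA_stmt) (hEVT : EVT_stmt) (hPT1 : PT1_stmt) : EV1_stmt := by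
  intro n k _ c b g ψ R ε δ A G Q H hQ hε a uc ha hdisj huc hGc
  by_contra hcon
  rw [not_lt] at hcon
  obtain ⟨A1, A2, A3, A4, A5, A6⟩ := hP1A n k c b g ψ R ε δ A G Q H
  have hd0 := H.d0
  have hd1 := H.d1
  have hn := H.su.hn
  have hn0 : n ≠ 0 := by omega
  have huc0 : uc ≠ 0 := by
    rintro rfl
    have h1 := H.sys.val Q le_rfl
    rw [hGc] at h1
    have h2 := H.su.cyc.step (-(Q : ZMod k) - 1)
    rw [sub_add_cancel, ← h1] at h2
    refine H.su.cyc.ne0 (-(Q : ZMod k) - 1) (eq_zero_of_pow_eq_zero (n := n) ?_)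
    linear_combination h2
  obtain ⟨wc, hwc⟩ : ∃ wc, wc = Complex.log uc := ⟨_, rfl⟩
  have hexp : Complex.exp wc = uc := by rw [hwc]; exact Complex.exp_log huc0
  have hre : wc.re = Real.log ‖uc‖ := by rw [hwc]; exact Complex.log_re uc
  have hnuc : 0 < ‖uc‖ := norm_pos_iff.mpr huc0
  have hre2 : wc.re ≤ -(a + δ / 4) := by
    rw [hre, ← Real.log_exp (-(a + δ / 4))]
    exact Real.log_le_log hnuc hcon
  have hAmono := EV1_mono H.sys
  -- the disc
  have hDHP : ∀ w ∈ ball wc (δ / 4), w ∈ HP a := by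
    intro w hw
    have h1 : |(w - wc).re| ≤ ‖w - wc‖ := Complex.abs_re_le_norm _
    rw [mem_ball, dist_eq_norm] at hw
    have h2 := (abs_le.mp h1).2
    rw [Complex.sub_re] at h2
    change w.re < -a
    linarith
  have hHP : ∀ q ≤ Q, ∀ w ∈ HP a, w ∈ HP (A q) := by
    intro q hq w hw
    have := hAmono q hq
    change w.re < -A q
    have h2 : w.re < -a := hw
    linarith
  have hlev := A4 Q le_rfl
  have hdiffD : ∀ q ≤ Q, DifferentiableOn ℂ (GW G q) (ball wc (δ / 4)) := fun q hq =>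
    (hlev.diff q hq).mono (fun w hw => hHP Q le_rfl w (hDHP w hw))
  have hinjD : ∀ q ≤ Q, InjOn (GW G q) (ball wc (δ / 4)) := by
    intro q hq w hw w' hw' h
    refine EV1_exp_inj (by linarith) hw hw' ?_
    exact A2 q hq (EV1_HP (hHP q hq w (hDHP w hw))) (EV1_HP (hHP q hq w' (hDHP w' hw'))) h
  have hmapD : ∀ q ≤ Q, MapsTo (GW G q) (ball wc (δ / 4)) (ball 0 R) := by
    intro q hq w hw
    exact A3 q hq (EV1_HP (hHP q hq w (hDHP w hw)))
  -- the parameters
  have hlog : 0 < Real.log ‖rho n b‖ := Real.log_pos H.su.rho1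
  have hE := H.su.hE
  have hint0 : 0 ≤ ∫ z in ball (0 : ℂ) R, ‖er n c b g z‖ := integral_nonneg (fun z => norm_nonneg _)
  have hpi := Real.pi_pos
  have hε0 : 0 ≤ ε := by
    have : 0 ≤ 2 * Real.pi * Real.log ‖rho n b‖ := by positivity
    linarith
  -- the integral bound
  have hint : ∫⁻ w in ball wc (δ / 4), ENNReal.ofReal (∑ j ∈ Finset.range n,
      (‖brv n b g (GW G Q) w (om n ^ j * rt n (GW G Q w - c))‖ -
        (brv n b g (GW G Q) w (om n ^ j * rt n (GW G Q w - c))).re)) ≤ ENNReal.ofReal ε := by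
    have hMA' := (hMA n k c b g R hn H.su.cyc H.su.hc H.su.hR H.su.rho1 (Q + 1) 1
      (fun _ => ball wc (δ / 4)) (GW G)
      (fun q hq => ⟨isOpen_ball, hdiffD q (by omega), hinjD q (by omega), hmapD q (by omega)⟩)
      (by
        intro z F hF
        rw [Finset.card_le_one]
        have key : ∀ q ∈ F, ∀ q' ∈ F, q < q' → False := by
          intro q hq q' hq' hlt
          obtain ⟨h1, w, hw, h2⟩ := hF q hq
          obtain ⟨h3, w', hw', h4⟩ := hF q' hq'
          have h5 := A6 a ha hdisj q q' hlt (by omega)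
          rw [Set.disjoint_left] at h5
          exact h5 ⟨Complex.exp w, EV1_HP (hDHP w hw), h2⟩ ⟨Complex.exp w', EV1_HP (hDHP w' hw'), h4⟩
        intro q hq q' hq'
        rcases lt_trichotomy q q' with h | h | h
        · exact (key q hq q' hq' h).elim
        · exact h
        · exact (key q' hq' q hq h).elim)).1
    have hstep1 : ∫⁻ w in ball wc (δ / 4), ENNReal.ofReal (∑ j ∈ Finset.range n,
        (‖brv n b g (GW G Q) w (om n ^ j * rt n (GW G Q w - c))‖ -
        (brv n b g (GW G Q) w (om n ^ j * rt n (GW G Q w - c))).re)) ≤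
        ∫⁻ w in ball wc (δ / 4), ∑ q ∈ Finset.range (Q + 1), ENNReal.ofReal (dens n c b g (GW G q) w) := by
      refine lintegral_mono_ae ?_
      have hne : ∀ᵐ w ∂(volume.restrict (ball wc (δ / 4))), w ≠ wc :=
        ae_restrict_of_ae (Measure.ae_ne volume wc)
      filter_upwards [hne, ae_restrict_mem measurableSet_ball] with w hw1 hw2
      have hw3 : GW G Q w ≠ c := by
        intro h
        apply hw1
        refine hinjD Q le_rfl hw2 (mem_ball_self (by linarith)) ?_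
        rw [h]
        change c = G Q (Complex.exp wc)
        rw [hexp, hGc]
      have h4 := (hLV n k c b g (GW G) (HP (A Q)) Q hn H.su.cyc (isOpen_lt Complex.continuous_re continuous_const)
        hlev).2.1 Q le_rfl w (hHP Q le_rfl w (hDHP w hw2)) hw3
      refine (ENNReal.ofReal_le_ofReal h4).trans ?_
      exact EV1_ofReal_sum _ _
    refine hstep1.trans ?_
    rw [lintegral_finsetSum' _ (fun q hq => EV1_aem hMI measurableSet_ball
      (hdiffD q (by rw [Finset.mem_range] at hq; omega)))]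
    refine hMA'.trans ?_
    rw [Nat.cast_one, one_mul]
    exact ENNReal.ofReal_le_ofReal (by linarith)
  -- the extended system
  have ha' : A Q ≤ -wc.re := by linarith [ha]
  have hexpa : Real.exp (-(-wc.re)) = ‖uc‖ := by rw [neg_neg, hre, Real.exp_log hnuc]
  obtain ⟨g', H'⟩ := EV1_ext hLR hP1A H hQ (-wc.re) ha'
    (fun h1 => (hdisj h1).mono_left (image_mono (ball_subset_ball (Real.exp_le_exp.mpr (by linarith)))))
    (by
      intro u hu h
      rw [hexpa] at hu
      have h1 : u ∈ ball (0 : ℂ) (Real.exp (-A Q)) := by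
        rw [mem_ball_zero_iff] at hu huc ⊢
        have : Real.exp (-a) ≤ Real.exp (-A Q) := Real.exp_le_exp.mpr (by linarith)
        linarith
      have h2 : uc ∈ ball (0 : ℂ) (Real.exp (-A Q)) :=
        ball_subset_ball (Real.exp_le_exp.mpr (by linarith)) huc
      have h3 := A2 Q le_rfl h1 h2 (by rw [h, hGc])
      rw [h3, mem_ball_zero_iff] at hu
      exact lt_irrefl _ hu)
  set A' := Function.update A (Q + 1) (-wc.re) with hA'
  set G' := Function.update G (Q + 1) g' with hG'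
  have hA'1 : A' (Q + 1) = -wc.re := Function.update_self _ _ _
  have hG'1 : G' (Q + 1) = g' := Function.update_self _ _ _
  have hG'Q : G' Q = G Q := Function.update_of_ne (by omega) _ _
  have hGWQ : GW G' Q = GW G Q := by
    funext w
    unfold GW
    rw [hG'Q]
  obtain ⟨w₁, hw₁⟩ : ∃ w₁ : ℂ, w₁ = wc - ((δ / 4 / 2 : ℝ) : ℂ) := ⟨_, rfl⟩
  have hw₁re : w₁.re = -(A' (Q + 1) + δ / 4 / 2) := by
    rw [hw₁, Complex.sub_re, Complex.ofReal_re, hA'1]
    ring
  obtain ⟨p1, p2, p3⟩ := hPT1 n k c b g ψ R ε δ A' G' (Q + 1) H' (Q + 1) (by omega) le_rfl w₁ (δ / 4 / 2)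
    (by linarith) hw₁re
  have hsum := p1 (by linarith)
  have hlevnn : ∀ q, 0 ≤ lev n c b g (GW G') q w₁ := by
    intro q
    unfold lev
    positivity
  have hlev1 : lev n c b g (GW G') (Q + 1) w₁ ≤ 4 * ε / (δ / 4 / 2) ^ 2 := by
    refine le_trans ?_ hsum
    exact Finset.single_le_sum (f := fun q => lev n c b g (GW G') q w₁) (fun q _ => hlevnn q)
      (Finset.mem_Icc.mpr ⟨by omega, le_rfl⟩)
  have hbet : ‖bet n b g (GW G') (Q + 1) 1 w₁‖ ≤ 4 * ε / (δ / 4 / 2) ^ 2 := by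
    refine le_trans ?_ hlev1
    unfold lev
    have h1 : ‖bet n b g (GW G') (Q + 1) 1 w₁‖ ≤ ∑ j ∈ Finset.Ico 1 n, ‖bet n b g (GW G') (Q + 1) j w₁‖ :=
      Finset.single_le_sum (f := fun j => ‖bet n b g (GW G') (Q + 1) j w₁‖) (fun j _ => norm_nonneg _)
        (Finset.mem_Ico.mpr ⟨le_rfl, by omega⟩)
    have h2 := norm_nonneg (eef n c b g (GW G') (Q + 1 - 1) w₁)
    linarith
  have htau : 1 - 4 * ε / (δ / 4 / 2) ^ 2 ≤ ‖tau b g (GW G') (Q + 1) w₁‖ := by
    have h1 := p3.trans hsum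
    have h2 : ‖(1 : ℂ)‖ - ‖tau b g (GW G') (Q + 1) w₁‖ ≤ ‖(1 : ℂ) - tau b g (GW G') (Q + 1) w₁‖ :=
      norm_sub_norm_le _ _
    rw [norm_sub_rev, norm_one] at h2
    linarith
  obtain ⟨B1, B2, B3, B4, B5, B6⟩ := hP1A n k c b g ψ R ε δ A' G' (Q + 1) H'
  have hlev' := B4 (Q + 1) le_rfl
  have hopen : IsOpen (HP (A' (Q + 1))) := isOpen_lt Complex.continuous_re continuous_const
  obtain ⟨e1, e2, e3, e4, e5, e6⟩ := hLEI n k c b g (GW G') (HP (A' (Q + 1))) (Q + 1) hn H.su.cyc hopen hlev'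
  have hw₁HP : w₁ ∈ HP (A' (Q + 1)) := by
    change w₁.re < -A' (Q + 1)
    rw [hw₁re]
    linarith
  have hb0 := e4 Q (by omega) w₁ hw₁HP 0
  have hb1 := e4 Q (by omega) w₁ hw₁HP 1
  rw [pow_zero, one_mul, e1, hGWQ] at hb0
  rw [pow_one, hGWQ] at hb1
  have hrel := (hlev'.rel Q (by omega) w₁ hw₁HP).1
  rw [hGWQ] at hrel
  have hfin := hEVT n k c b g (GW G Q) wc w₁ (GW G' (Q + 1) w₁) (δ / 4) ε hn H.su.cyc (by linarith) hε0
    (hdiffD Q le_rfl) (hinjD Q le_rfl)
    (fun w hw j => (hLEA n k c b g (GW G) (HP (A Q)) Q hn H.su.cyc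
      (isOpen_lt Complex.continuous_re continuous_const) hlev).1 Q le_rfl w (hHP Q le_rfl w (hDHP w hw)) j)
    (by
      change G Q (Complex.exp wc) = c
      rw [hexp, hGc])
    (by
      rw [hw₁, sub_sub_cancel_left, norm_neg, Complex.norm_real, Real.norm_eq_abs, abs_of_pos (by linarith)])
    hrel hint
  rw [hb0, hb1] at hfin
  -- the numbers
  have hδ2 : 0 < δ ^ 2 := by positivity
  have hx : ε / δ ^ 2 ≤ 1 / 10 ^ 16 := by
    rw [div_le_div_iff₀ hδ2 (by norm_num)]
    rw [le_div_iff₀ (by norm_num)] at hε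
    linarith
  have hx0 : 0 ≤ ε / δ ^ 2 := by positivity
  have hy1 : 4 * ε / (δ / 4 / 2) ^ 2 = 256 * (ε / δ ^ 2) := by
    field_simp
    ring
  have hy2 : 12 * ε / (δ / 4) ^ 2 = 192 * (ε / δ ^ 2) := by
    field_simp
    ring
  rw [hy1] at hbet htau
  rw [hy2] at hfin
  have h4 : (4 : ℝ) ^ 20 = 1099511627776 := by norm_num
  rw [h4] at hfin
  nlinarith

end MPS
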