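import Pool.Agent.helper36.MP.SpecN

/-!
# TB: the transfer identity
-/

set_option autoImplicit false

open Complex Metric Set Filter Topology MeasureTheory

noncomputable section

namespace MPS

lemma TB_prim (n : ℕ) (hn : 2 ≤ n) : IsPrimitiveRoot (om n) n :=
  Complex.isPrimitiveRoot_exp n (by omega)

lemma TB_omn (n : ℕ) (hn : 2 ≤ n) (j : ℕ) : (om n ^ j) ^ n = 1 := by
  rw [← pow_mul, mul_comm, pow_mul, (TB_prim n hn).pow_eq_one, one_pow]

lemma TB_pow_sum (n m : ℕ) (hn : 2 ≤ n) :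
    ∑ j ∈ Finset.range n, (om n ^ j) ^ m = if n ∣ m then (n : ℂ) else 0 := by
  have hp := TB_prim n hn
  have h1 : ∀ j, (om n ^ j) ^ m = (om n ^ m) ^ j := fun j => by
    rw [← pow_mul, ← pow_mul, mul_comm]
  simp only [h1]
  split_ifs with h
  · have h2 : om n ^ m = 1 := (hp.pow_eq_one_iff_dvd m).mpr h
    simp [h2]
  · have h2 : om n ^ m ≠ 1 := fun h' => h ((hp.pow_eq_one_iff_dvd m).mp h')
    rw [geom_sum_eq h2]
    have h3 : (om n ^ m) ^ n = 1 := by rw [← pow_mul, mul_comm, pow_mul, hp.pow_eq_one, one_pow]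
    rw [h3, sub_self, zero_div]

lemma TB_om_ne (n : ℕ) (hn : 2 ≤ n) (j : ℕ) : om n ^ j ≠ 0 := by
  intro h
  have := TB_omn n hn j
  rw [h, zero_pow (by omega)] at this
  exact zero_ne_one this

/-- the value of a denominator -/
lemma TB_fd (n : ℕ) (hn : 2 ≤ n) (y : ℂ) (hy : y ≠ 0) (j : ℕ) :
    1 / fd n (om n ^ j * y) ^ 2 = (om n ^ j * y) ^ 2 / ((n : ℂ) ^ 2 * (y ^ n) ^ 2) := by
  have hY : om n ^ j * y ≠ 0 := mul_ne_zero (TB_om_ne n hn j) hy
  have hn0 : (n : ℂ) ≠ 0 := Nat.cast_ne_zero.mpr (by omega)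
  have h1 : (om n ^ j * y) ^ n = y ^ n := by rw [mul_pow, TB_omn n hn, one_mul]
  have h2 : (om n ^ j * y) ^ (n - 1) * (om n ^ j * y) = y ^ n := by
    rw [← pow_succ, show n - 1 + 1 = n by omega, h1]
  have h3 : (om n ^ j * y) ^ (n - 1) ≠ 0 := pow_ne_zero _ hY
  rw [← h2]
  unfold fd
  generalize om n ^ j * y = Y at *
  field_simp

lemma TB_S1 (n : ℕ) (hn : 2 ≤ n) (y a : ℂ) (hy : y ≠ 0) (ha : y ^ n ≠ a ^ n) :
    ∑ j ∈ Finset.range n, (1 / (om n ^ j * y - a)) * (1 / fd n (om n ^ j * y) ^ 2) =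
      a / (n * y ^ n * (y ^ n - a ^ n)) := by
  have hn0 : (n : ℂ) ≠ 0 := Nat.cast_ne_zero.mpr (by omega)
  have hsub : y ^ n - a ^ n ≠ 0 := sub_ne_zero.mpr ha
  have h1 : ∀ j, (1 / (om n ^ j * y - a)) * (1 / fd n (om n ^ j * y) ^ 2) =
      ∑ l ∈ Finset.range n, (om n ^ j) ^ (l + 2) * (y ^ (l + 2) * a ^ (n - 1 - l) /
        ((n : ℂ) ^ 2 * (y ^ n) ^ 2 * (y ^ n - a ^ n))) := by
    intro j
    have hY : (om n ^ j * y) ^ n = y ^ n := by rw [mul_pow, TB_omn n hn, one_mul]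
    have h2 : om n ^ j * y - a ≠ 0 := by
      intro h
      apply ha
      rw [← hY, sub_eq_zero.mp h]
    have h3 := (Commute.all (om n ^ j * y) a).geom_sum₂_mul n
    rw [hY] at h3
    have h4 : 1 / (om n ^ j * y - a) = (∑ l ∈ Finset.range n, (om n ^ j * y) ^ l * a ^ (n - 1 - l)) / (y ^ n - a ^ n) := by
      rw [← h3]
      have h5 : (∑ l ∈ Finset.range n, (om n ^ j * y) ^ l * a ^ (n - 1 - l)) ≠ 0 := by
        intro h
        rw [h, zero_mul] at h3
        exact hsub h3.symm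
      field_simp
    rw [h4, TB_fd n hn y hy, Finset.sum_div, Finset.sum_mul]
    refine Finset.sum_congr rfl (fun l _ => ?_)
    rw [mul_pow, mul_pow]
    field_simp
    ring
  simp only [h1]
  rw [Finset.sum_comm]
  have h2 : ∀ l ∈ Finset.range n, ∑ j ∈ Finset.range n, (om n ^ j) ^ (l + 2) * (y ^ (l + 2) * a ^ (n - 1 - l) /
        ((n : ℂ) ^ 2 * (y ^ n) ^ 2 * (y ^ n - a ^ n))) =
      if l = n - 2 then (n : ℂ) * (y ^ n * a / ((n : ℂ) ^ 2 * (y ^ n) ^ 2 * (y ^ n - a ^ n))) else 0 := by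
    intro l hl
    rw [Finset.mem_range] at hl
    rw [← Finset.sum_mul, TB_pow_sum n _ hn]
    by_cases h : l = n - 2
    · have h3 : l + 2 = n := by omega
      have h4 : n - 1 - l = 1 := by omega
      rw [if_pos h, h3, h4, if_pos dvd_rfl, pow_one]
    · rw [if_neg h, if_neg, zero_mul]
      rintro ⟨q, hq⟩
      rcases Nat.lt_or_ge q 2 with h5 | h5
      · interval_cases q
        · omega
        · omega
      · have : n * 2 ≤ n * q := Nat.mul_le_mul_left n h5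
        omega
  rw [Finset.sum_congr rfl h2, Finset.sum_ite_eq' (Finset.range n) (n - 2), if_pos (Finset.mem_range.mpr (by omega))]
  have hyn : y ^ n ≠ 0 := pow_ne_zero _ hy
  field_simp

lemma TB_S2 (n : ℕ) (hn : 2 ≤ n) (y a : ℂ) (hy : y ≠ 0) (ha : y ^ n ≠ a ^ n) :
    ∑ j ∈ Finset.range n, (1 / (om n ^ j * y - a) ^ 2) * (1 / fd n (om n ^ j * y) ^ 2) =
      (y ^ n + (n - 1) * a ^ n) / (n * y ^ n * (y ^ n - a ^ n) ^ 2) := by
  have hn0 : (n : ℂ) ≠ 0 := Nat.cast_ne_zero.mpr (by omega)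
  have hsub : y ^ n - a ^ n ≠ 0 := sub_ne_zero.mpr ha
  have hyn : y ^ n ≠ 0 := pow_ne_zero _ hy
  have hF : HasDerivAt (fun x : ℂ => ∑ j ∈ Finset.range n, (1 / (om n ^ j * y - x)) * (1 / fd n (om n ^ j * y) ^ 2))
      (∑ j ∈ Finset.range n, (1 / (om n ^ j * y - a) ^ 2) * (1 / fd n (om n ^ j * y) ^ 2)) a := by
    refine HasDerivAt.fun_sum (fun j _ => ?_)
    have h2 : om n ^ j * y - a ≠ 0 := by
      intro h
      apply ha
      rw [← sub_eq_zero.mp h, mul_pow, TB_omn n hn, one_mul]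
    have h3 : HasDerivAt (fun x : ℂ => om n ^ j * y - x) (0 - 1) a := (hasDerivAt_const a _).sub (hasDerivAt_id a)
    have h4 := h3.inv h2
    have h5 : HasDerivAt (fun x : ℂ => 1 / (om n ^ j * y - x)) (1 / (om n ^ j * y - a) ^ 2) a := by
      have e1 : (fun x : ℂ => 1 / (om n ^ j * y - x)) = (fun x : ℂ => om n ^ j * y - x)⁻¹ := by
        funext x
        simp
      rw [e1]
      have e2 : -(0 - 1) / (om n ^ j * y - a) ^ 2 = 1 / (om n ^ j * y - a) ^ 2 := by ring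
      rw [← e2]
      exact h4
    exact h5.mul_const _
  have hG : HasDerivAt (fun x : ℂ => x / (n * y ^ n * (y ^ n - x ^ n)))
      ((y ^ n + (n - 1) * a ^ n) / (n * y ^ n * (y ^ n - a ^ n) ^ 2)) a := by
    have h3 : HasDerivAt (fun x : ℂ => n * y ^ n * (y ^ n - x ^ n)) (n * y ^ n * (0 - n * a ^ (n - 1))) a :=
      ((hasDerivAt_const a (y ^ n)).sub (hasDerivAt_pow n a)).const_mul _
    have h4 := (hasDerivAt_id a).div h3 (mul_ne_zero (mul_ne_zero hn0 hyn) hsub)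
    have h5 : a ^ (n - 1) * a = a ^ n := by rw [← pow_succ, show n - 1 + 1 = n by omega]
    have e2 : (1 * (n * y ^ n * (y ^ n - a ^ n)) - id a * (n * y ^ n * (0 - n * a ^ (n - 1)))) /
        (n * y ^ n * (y ^ n - a ^ n)) ^ 2 = (y ^ n + (n - 1) * a ^ n) / (n * y ^ n * (y ^ n - a ^ n) ^ 2) := by
      simp only [id]
      rw [div_eq_div_iff (pow_ne_zero 2 (mul_ne_zero (mul_ne_zero hn0 hyn) hsub))
        (mul_ne_zero (mul_ne_zero hn0 hyn) (pow_ne_zero 2 hsub))]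
      linear_combination (n * y ^ n * (y ^ n - a ^ n)) ^ 2 * n * h5
    rw [← e2]
    exact h4
  refine (hF.congr_of_eventuallyEq ?_).unique hG
  have hopen : ∀ᶠ x in 𝓝 a, y ^ n ≠ x ^ n := by
    have : Continuous fun x : ℂ => x ^ n := continuous_pow n
    have h6 := this.tendsto a
    have h7 := h6.eventually_ne (Ne.symm ha)
    filter_upwards [h7] with x hx
    exact Ne.symm hx
  filter_upwards [hopen] with x hx
  exact (TB_S1 n hn y x hy hx).symm

theorem TB : TB_stmt := by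
  intro n k _ c b g hn hcyc y hy hyb
  have hn0 : (n : ℂ) ≠ 0 := Nat.cast_ne_zero.mpr (by omega)
  have hyn : y ^ n ≠ 0 := pow_ne_zero _ hy
  have hne : ∀ i, y ^ n ≠ b i ^ n := fun i h => hyb (i + 1) (by rw [h, hcyc.step])
  -- reindexing of `BB`
  have hBB : BB b g (y ^ n + c) = ∑ i, (1 / (y ^ n + c - b (i + 1)) ^ 2 + g (i + 1) / (y ^ n + c - b (i + 1))) := by
    unfold BB
    exact (Equiv.sum_comp (Equiv.addRight (1 : ZMod k)) (fun i => 1 / (y ^ n + c - b i) ^ 2 + g i / (y ^ n + c - b i))).symm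
  rw [hBB]
  unfold er
  have hL : ∑ j ∈ Finset.range n, BB b g (om n ^ j * y) / fd n (om n ^ j * y) ^ 2 =
      ∑ i, ((y ^ n + (n - 1) * b i ^ n) / (n * y ^ n * (y ^ n - b i ^ n) ^ 2) +
        g i * (b i / (n * y ^ n * (y ^ n - b i ^ n)))) := by
    unfold BB
    simp only [Finset.sum_div]
    rw [Finset.sum_comm]
    refine Finset.sum_congr rfl (fun i _ => ?_)
    rw [← TB_S1 n hn y (b i) hy (hne i), ← TB_S2 n hn y (b i) hy (hne i), Finset.mul_sum, ← Finset.sum_add_distrib]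
    refine Finset.sum_congr rfl (fun j _ => ?_)
    ring
  rw [hL, Finset.sum_div, ← sub_sub, ← Finset.sum_sub_distrib, ← Finset.sum_sub_distrib]
  refine Finset.sum_congr rfl (fun i _ => ?_)
  have hstep : b (i + 1) = b i ^ n + c := (hcyc.step i).symm
  have hbi : b i ≠ 0 := hcyc.ne0 i
  have hsub : y ^ n - b i ^ n ≠ 0 := sub_ne_zero.mpr (hne i)
  have e1 : y ^ n + c - b (i + 1) = y ^ n - b i ^ n := by rw [hstep]; ring
  have e2 : y ^ n + c - c = y ^ n := by ring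
  have e3 : b i ^ (n - 1) * b i = b i ^ n := by rw [← pow_succ, show n - 1 + 1 = n by omega]
  have e4 : b i ^ (n - 2) * b i ^ 2 = b i ^ n := by rw [← pow_add, show n - 2 + 2 = n by omega]
  have hbn : b i ^ n ≠ 0 := pow_ne_zero _ hbi
  have hbn1 : b i ^ (n - 1) ≠ 0 := pow_ne_zero _ hbi
  have f1 : 1 / fd n (b i) = b i / (n * b i ^ n) := by
    unfold fd
    rw [← e3]
    field_simp
  have f2 : fdd n (b i) / fd n (b i) ^ 2 = (n - 1) / (n * b i ^ n) := by
    have : fdd n (b i) / fd n (b i) ^ 2 = fdd n (b i) * (1 / fd n (b i)) ^ 2 := by ring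
    rw [this, f1]
    unfold fdd
    rw [← e4]
    have hbn2 : b i ^ (n - 2) ≠ 0 := pow_ne_zero _ hbi
    field_simp
  have f3 : g i / fd n (b i) = g i * (b i / (n * b i ^ n)) := by rw [← f1]; ring
  rw [e1, e2, f2, f3]
  field_simp
  ring

end MPS
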